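import Pool.Agent.Lib.MP_f2e65a_lc.AMain

/-! # The scanning algorithm is polynomial on torus links

For every field `k` and every `n ≥ 2` there is a constant `C` such that for all `m ≥ 1` every run of Bar-Natan's scanning algorithm over `k` on the closure of the braid word `(σ_1 ⋯ σ_{n - 1}) ^ m`, with any rule for the choice of the eliminated entries, keeps at most `C m ^ ⌊n / 2⌋` generators at any time and costs at most `C m ^ (3 ⌊n / 2⌋ + 1)`.
The number of generators of the last complex is the dimension of the homology of the complex without simplifications (`Cube`), i.e. of the Khovanov homology. -/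

set_option autoImplicit false

namespace Pool.Agent.Results.MP_f2e65a_lc.ScanTorusLinks

open Pool.Agent.Lib.MP_f2e65a_lc.Alg

theorem result (k : Type) [Field k] (n : ℕ) (hn : 2 ≤ n) :
    (∀ (l : ℕ) (α β : Equiv.Perm (Fin l)) (V : Submodule k (Cob k l)),
      (∀ y ∈ V, IsHom α β y) → Module.Finite k V ∧ Module.finrank k V ≤ 2 ^ l) ∧
    ∃ C : ℕ, ∀ m : ℕ, 1 ≤ m →
      (∃ (σ : SOb k) (c M : ℕ), Scan k n m (m * (n - 1)) σ c M) ∧
      (∀ j ≤ m * (n - 1), ∀ (σ : SOb k) (c M : ℕ), Scan k n m j σ c M →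
        M ≤ C * m ^ (n / 2) ∧ c ≤ C * m ^ (3 * (n / 2) + 1)) ∧
      (∃ τ : SOb k, Cube k n m (m * (n - 1)) τ) ∧
      ∀ (σ τ : SOb k) (c M : ℕ), Scan k n m (m * (n - 1)) σ c M →
        Cube k n m (m * (n - 1)) τ → σ.l = 0 ∧ τ.l = 0 ∧ σ.s.N = hdim τ.s :=
  main3 k n hn

end Pool.Agent.Results.MP_f2e65a_lc.ScanTorusLinks
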